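import Pool.Agent.H61.KV.TS

/-!
Row MNM of kv_modules (MP_c11ac4_gt): minimum points of positive functionals lie in `Mh m`.
-/

set_option autoImplicit false

open Topology Set
open Pool.Agent.H59 Pool.Agent.H64.LB Pool.Agent.H61.KU Pool.Agent.H61.KV
open scoped unitInterval

namespace Pool.Agent.H54.KV.MNM

/-- the functional `(a, b) ↦ ⟪z, a⟫ + κ b` -/
noncomputable def xi (z : E4) (κ : E5 →ₗ[ℝ] ℝ) : E4 × E5 →ₗ[ℝ] ℝ where
  toFun v := inner ℝ z v.1 + κ v.2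
  map_add' u v := by
    simp only [Prod.fst_add, Prod.snd_add, inner_add_right, map_add]
    ring
  map_smul' c v := by
    simp only [Prod.smul_fst, Prod.smul_snd, inner_smul_right, map_smul, smul_eq_mul,
      RingHom.id_apply]
    ring

theorem pf_MNM (h1 : T_SPF) (h2 : T_CNC) (h3 : T_MNS) (h4 : T_B2N) (h5 : T_EXP) (h6 : T_FCB) :
    T_MNM := by
  intro m p hS z a₀ b₀ hz hb hM
  have hC := h2 _ m hS.cfg
  obtain ⟨κ, hκ, hκ0⟩ := h1 (Cn m) z a₀ b₀ hC.1 hb hM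
  by_contra hq0
  have hq0C : (a₀, b₀) ∈ Cn m := hM.1
  have hF := h6 _ (Cn m) (a₀, b₀) hC.1 hq0C
  obtain ⟨p1, hp1, hMs1⟩ := h3 _ m hS.cfg (a₀, b₀) hq0C (fun h => hq0 (h hF.1))
  obtain ⟨q, hq, hqp, hqp1⟩ := h4 _ m hS.cfg p p1 hS.ms hMs1
  have hq2 : q.2 = 0 := (hS.spn q).1 (Submodule.subset_span hqp)
  have hqq0 : q ∈ Fc (Cn m) (a₀, b₀) := hF.2.2.2.1 p1 hp1 hqp1
  have hξ : xi z κ q = 0 :=
    h5 _ (Cn m) (a₀, b₀) (xi z κ) (fun r hr => hκ r.1 r.2 hr) hκ0 q (Submodule.subset_span hqq0)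
  have hq1 : q.1 ≠ 0 := fun h => hq (Prod.ext h hq2)
  have hqe : (q.1, (0 : E5)) = q := Prod.ext rfl hq2.symm
  have hpos : 0 < inner ℝ z q.1 := hz q.1 (by rw [hqe]; exact hqq0.1) hq1
  have hval : xi z κ q = inner ℝ z q.1 + κ q.2 := rfl
  rw [hval, hq2, map_zero, add_zero] at hξ
  exact absurd hξ hpos.ne'

end Pool.Agent.H54.KV.MNM
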